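import Mathlib
import Pool.Agent.H361Z.PM.Main

set_option autoImplicit false

open MeasureTheory Set

namespace Pool.Agent.Results.MP_4eb066_an.AFiniteSpeed

/-- Euclidean space `R^N`. -/
abbrev Sp (N : ℕ) : Type := EuclideanSpace ℝ (Fin N)

/-- The cylinder `Q_T = R^N × (0,T)`. -/
def cyl (N : ℕ) (T : ℝ) : Set (Sp N × ℝ) := univ ×ˢ Ioo 0 T

/-- The bounded cylinder `B_R × (0,T)`, with `B_R` the closed ball. -/
def box (N : ℕ) (T R : ℝ) : Set (Sp N × ℝ) := Metric.closedBall 0 R ×ˢ Ioo 0 T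

/-- The constant `c(N,s) = π^(N/2-2s) Γ(s) / Γ((N-2s)/2)`. -/
noncomputable def cst (N : ℕ) (s : ℝ) : ℝ :=
  Real.pi ^ ((N : ℝ) / 2 - 2 * s) * Real.Gamma s / Real.Gamma (((N : ℝ) - 2 * s) / 2)

/-- The Riesz kernel `K_s(x) = c(N,s)⁻¹ |x|^(-(N-2s))`. -/
noncomputable def ker (N : ℕ) (s : ℝ) (x : Sp N) : ℝ :=
  (cst N s)⁻¹ * ‖x‖ ^ (-((N : ℝ) - 2 * s))

/-- The pressure `K_s[u](x,t) = ∫ K_s(x-y) u(y,t) dy`. -/
noncomputable def press (N : ℕ) (s : ℝ) (u : Sp N × ℝ → ℝ) (p : Sp N × ℝ) : ℝ :=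
  ∫ y, ker N s (p.1 - y) * u (y, p.2)

/-- Time derivative. -/
noncomputable def dt {N : ℕ} (φ : Sp N × ℝ → ℝ) (p : Sp N × ℝ) : ℝ := fderiv ℝ φ p (0, 1)

/-- Spatial derivative in the direction `e`, that is `e · ∇φ`. -/
noncomputable def dx {N : ℕ} (φ : Sp N × ℝ → ℝ) (p : Sp N × ℝ) (e : Sp N) : ℝ :=
  fderiv ℝ φ p (e, 0)

/-- Lebesgue integrability on a set of space-time (scalar functions). -/
def IntOn {N : ℕ} (f : Sp N × ℝ → ℝ) (A : Set (Sp N × ℝ)) : Prop := IntegrableOn f A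

/-- Lebesgue integrability on a set of space-time (vector fields). -/
def IntOnV {N : ℕ} (f : Sp N × ℝ → Sp N) (A : Set (Sp N × ℝ)) : Prop := IntegrableOn f A

/-- Lebesgue integral over a set of space-time. -/
noncomputable def itg {N : ℕ} (f : Sp N × ℝ → ℝ) (A : Set (Sp N × ℝ)) : ℝ := ∫ p in A, f p

/-- `G` is the spatial gradient of `q` on `Q_T` in the sense of distributions. -/
def IsGrad (N : ℕ) (T : ℝ) (q : Sp N × ℝ → ℝ) (G : Sp N × ℝ → Sp N) : Prop :=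
  ∀ ψ : Sp N × ℝ → ℝ, ContDiff ℝ 1 ψ → HasCompactSupport ψ → tsupport ψ ⊆ cyl N T →
    ∀ e : Sp N, itg (fun p => q p * dx ψ p e) univ = -itg (fun p => inner ℝ (G p) e * ψ p) univ

/-- Test functions of the weak formulation. -/
def IsTest (N : ℕ) (T : ℝ) (φ : Sp N × ℝ → ℝ) : Prop :=
  ContDiffOn ℝ 1 φ (univ ×ˢ Ico 0 T) ∧ (∀ t ∈ Ioo 0 T, HasCompactSupport fun x => φ (x, t)) ∧
    ∃ δ > 0, ∀ x t, T - δ < t → t < T → φ (x, t) = 0

/-- The identity (iv) for the test function `φ`, with integrable integrands. -/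
def Identity (N : ℕ) (m T : ℝ) (u₀ : Sp N → ℝ) (u : Sp N × ℝ → ℝ) (G : Sp N × ℝ → Sp N)
    (φ : Sp N × ℝ → ℝ) : Prop :=
  IntOn (fun p => u p * dt φ p) (cyl N T) ∧
    IntOn (fun p => u p ^ (m - 1) * dx φ p (G p)) (cyl N T) ∧
    Integrable (fun x => u₀ x * φ (x, 0)) ∧
    itg (fun p => u p * dt φ p) (cyl N T) - itg (fun p => u p ^ (m - 1) * dx φ p (G p)) (cyl N T)
      + ∫ x, u₀ x * φ (x, 0) = 0

/-- `u` is a weak solution on `Q_T` with datum `u₀`, `G` being the gradient of its pressure. -/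
def IsWeakSolution (N : ℕ) (m s T : ℝ) (u₀ : Sp N → ℝ) (u : Sp N × ℝ → ℝ)
    (G : Sp N × ℝ → Sp N) : Prop :=
  (∀ p ∈ cyl N T, 0 ≤ u p) ∧ IntOn u (cyl N T) ∧
    (∀ p ∈ cyl N T, Integrable fun y => ker N s (p.1 - y) * u (y, p.2)) ∧
    (∀ R : ℝ, IntOn (press N s u) (box N T R)) ∧ IsGrad N T (press N s u) G ∧
    (∀ R : ℝ, IntOnV G (box N T R)) ∧ IntOnV (fun p => u p ^ (m - 1) • G p) (cyl N T) ∧
    ∀ φ, IsTest N T φ → Identity N m T u₀ u G φ

open Pool.Agent.H361Z.PM in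
/-- A bounded weak solution with datum the indicator of the unit ball that stays supported in the
ball of radius `2`. -/
theorem result (N : ℕ) (hN : 2 ≤ N) (m s T : ℝ) (hm1 : 1 < m) (hm2 : m < 2) (hs1 : 1 / 2 < s)
    (hs2 : s < 1) (hT : 0 < T) :
    ∃ (u : Sp N × ℝ → ℝ) (G : Sp N × ℝ → Sp N),
      IsWeakSolution N m s T ((Metric.closedBall 0 1).indicator fun _ => 1) u G ∧
      MemLp u ⊤ (volume.restrict (cyl N T)) ∧
      ∀ x t, t ∈ Ioo 0 T → 2 < ‖x‖ → u (x, t) = 0 := by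
  have hd : (dm (EuclideanSpace ℝ (Fin N)) : ℝ) = N := by simp [dm]
  have hN' : (2 : ℝ) ≤ N := by exact_mod_cast hN
  have : Nonempty (Fin N) := ⟨⟨0, by omega⟩⟩
  have hc : 0 < (cst N s)⁻¹ := inv_pos.2 (div_pos (mul_pos (by positivity)
    (Real.Gamma_pos_of_pos (by linarith))) (Real.Gamma_pos_of_pos (by linarith)))
  obtain ⟨lo, hi, c₀, -, -, h3, h⟩ := exists_Sol (E := EuclideanSpace ℝ (Fin N))
    (a := (N : ℝ) - 2 * s) (by linarith) (by rw [hd]; linarith) hm1 hm2 hT hc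
  obtain ⟨u, G, hK, -, -⟩ := h c₀ h3 le_rfl
  obtain ⟨P, hP⟩ := hK.bdd
  obtain ⟨C₁, hC₁⟩ := hK.bpot
  obtain ⟨C₂, hC₂⟩ := hK.bG
  obtain ⟨C₃, hC₃⟩ := hK.bF
  have hp : press N s u = fun p => (cst N s)⁻¹ *
      ∫ y, ‖p.1 - y‖ ^ (-((N : ℝ) - 2 * s)) * u (y, p.2) := by
    funext p
    simp only [press, ker, mul_assoc, integral_const_mul]
  have hsub : ∀ R : ℝ, Metric.closedBall (0 : EuclideanSpace ℝ (Fin N)) R ×ˢ Ioo 0 T ⊆
      Metric.closedBall 0 R ×ˢ Icc 0 T := fun R => prod_mono Subset.rfl Ioo_subset_Icc_self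
  have hcpt : ∀ R : ℝ, IsCompact (Metric.closedBall (0 : EuclideanSpace ℝ (Fin N)) R ×ˢ
      Icc (0 : ℝ) T) := fun R => (isCompact_closedBall _ _).prod isCompact_Icc
  refine ⟨u, G, ⟨fun p _ => hK.nonneg p, integrableOn_QT hK.meas.aestronglyMeasurable P
    (fun p _ _ => hP p) fun p _ h2 => hK.supp p h2, fun p _ => ?_, fun R => ?_,
    fun ψ h1 h2 _ e => ?_,
    fun R => ((locInt_of_bdd hK.mG hC₂).integrableOn_isCompact (hcpt R)).mono_set (hsub R),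
    integrableOn_QT hK.mF.aestronglyMeasurable C₃ (fun p _ _ => hC₃ p) fun p _ h2 => by
      rw [hK.supp p h2, Real.zero_rpow (by linarith), zero_smul], ?_⟩,
    memLp_top_of_bound hK.meas.aestronglyMeasurable P (Filter.Eventually.of_forall hP),
    fun x t _ hx => hK.supp (x, t) hx⟩
  · simp only [ker, mul_assoc]
    exact (hK.ipot p).const_mul _
  · rw [hp]
    exact (((locInt_of_bdd hK.mpot hC₁).integrableOn_isCompact (hcpt R)).mono_set
      (hsub R)).const_mul _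
  · rw [hp]
    simp only [itg, dx, Measure.restrict_univ]
    exact hK.grad ψ h1 h2 e
  · rintro φ ⟨h1, -, δ, hδ, h2⟩
    obtain ⟨k1, k2⟩ := test_of_contDiffOn hδ h1 h2
    obtain ⟨i1, i2, i3⟩ := hK.weak _ k1
    have e1 : EqOn (fun p => u p * fderiv ℝ (fun p : EuclideanSpace ℝ (Fin N) × ℝ =>
        if p.2 < T then φ p else 0) p (0, 1)) (fun p => u p * fderiv ℝ φ p (0, 1)) (cyl N T) :=
      fun p hp => by simp only [(k2 p hp.2.2).fderiv_eq]
    have e2 : EqOn (fun p => u p ^ (m - 1) * fderiv ℝ (fun p : EuclideanSpace ℝ (Fin N) × ℝ =>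
        if p.2 < T then φ p else 0) p (G p, 0))
        (fun p => u p ^ (m - 1) * fderiv ℝ φ p (G p, 0)) (cyl N T) :=
      fun p hp => by simp only [(k2 p hp.2.2).fderiv_eq]
    have hQ : MeasurableSet (cyl N T) := measurableSet_QT T
    have c0 : Continuous fun x : EuclideanSpace ℝ (Fin N) => φ (x, 0) :=
      h1.continuousOn.comp_continuous (by fun_prop) fun x => ⟨mem_univ _, le_rfl, hT⟩
    refine ⟨IntegrableOn.congr_fun i1 e1 hQ, IntegrableOn.congr_fun i2 e2 hQ,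
      (adm_cb one_le_two).integrable_cont c0, ?_⟩
    simp only [itg, dt, dx]
    rw [← setIntegral_congr_fun hQ e1, ← setIntegral_congr_fun hQ e2]
    simp only [if_pos hT] at i3
    exact i3

end Pool.Agent.Results.MP_4eb066_an.AFiniteSpeed
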